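import Pool.Agent.P8H61.Main

/-!
# Finitely presented diagram groups are of type `F_∞`

Definitions used in the statement:

* `Pres A` is a semigroup presentation over the alphabet `A`: a set of relations `(u, v)` with
  `u`, `v` nonempty words (neither `A` nor the set of relations has to be finite).
* `OE P` are the oriented edges `(a, r, s, c)` of the Squier complex: they lead from `a u c` to
  `a v c` if `s = true`, and from `a v c` to `a u c` if `s = false`, where `r = (u, v)`.
* `IsPath w L w'`: the list `L` of oriented edges is an edge path from `w` to `w'`.
* `Elem P`: elementary homotopies of edge paths, that is deletion of a backtrack, and replacing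
  one half of the boundary of a square by the other half.
* `DiagramGroup P w`: closed edge paths at `w` modulo elementary homotopies, with concatenation
  (the fundamental group of the Squier complex at `w`).
* `TypeFP G m`: the trivial `ℤ[G]`-module `ℤ` has a partial resolution `Q_m → ... → Q_0 → ℤ → 0`
  by finitely generated projective `ℤ[G]`-modules.

A finitely presented group is of type `F_m` (`m ≥ 2`) if and only if it is of type `FP_m`, so the
theorem says that every diagram group of type `F_2` is of type `F_∞`.
-/

set_option autoImplicit false

namespace Pool.Agent.Results.MP_cff99f_al.FinitelyPresentedFInfty

open H540DG Pool.Agent.Y72.Ty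

/-- **Theorem.** Every finitely presented diagram group is of type `FP_m` for all `m`, and
therefore of type `F_∞`. In particular every diagram group of type `F_n` with `n ≥ 2` is of type
`F_{n+1}`. -/
theorem result {A : Type} (P : Pres A) (w : List A) {G : Type} [Group G]
    (e : G ≃* DiagramGroup P w) (hfp : Group.IsFinitelyPresented G) (m : ℕ) :
    TypeFP G m :=
  Pool.Agent.P8H61.fp_infty e hfp m

end Pool.Agent.Results.MP_cff99f_al.FinitelyPresentedFInfty
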